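import Mathlib

namespace Pool.Agent.Results.MP_b3a6b1_al.Counter

section Defs
variable {K : Type} [Field K] {d : ℕ}

/-- linear maps of `K ^ (d + 1)` -/
abbrev Mat (K : Type) (d : ℕ) := Matrix (Fin (d + 1)) (Fin (d + 1)) K

/-- the matrix of `X` in the basis given by the columns of the invertible matrix `P` -/
def inB (P : (Mat K d)ˣ) (X : Mat K d) : Mat K d := (P⁻¹).val * X * P.val

/-- irreducible tridiagonal -/
def IrrTri (X : Mat K d) : Prop :=
  ∀ i j : Fin (d + 1), (i.1 + 1 < j.1 ∨ j.1 + 1 < i.1 → X i j = 0) ∧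
    (i.1 + 1 = j.1 ∨ j.1 + 1 = i.1 → X i j ≠ 0)

def LeonardPair (A B : Mat K d) : Prop :=
  (∃ P, (inB P A).IsDiag ∧ IrrTri (inB P B)) ∧ ∃ P, (inB P B).IsDiag ∧ IrrTri (inB P A)

def LeonardTriple (A B C : Mat K d) : Prop :=
  (∃ P, (inB P A).IsDiag ∧ IrrTri (inB P B) ∧ IrrTri (inB P C)) ∧
  (∃ P, (inB P B).IsDiag ∧ IrrTri (inB P A) ∧ IrrTri (inB P C)) ∧
  ∃ P, (inB P C).IsDiag ∧ IrrTri (inB P A) ∧ IrrTri (inB P B)

def Diagonalizable (A : Mat K d) : Prop := ∃ P, (inB P A).IsDiag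

/-- the Askey-Wilson relations -/
def AW (B C : Mat K d) : Prop :=
  ∃ β γ γ' ρ ρ' ω η η' : K,
    B ^ 2 * C - β • (B * C * B) + C * B ^ 2 - γ • (B * C + C * B) - ρ • C =
      γ' • B ^ 2 + ω • B + η • (1 : Mat K d) ∧
    C ^ 2 * B - β • (C * B * C) + B * C ^ 2 - γ' • (C * B + B * C) - ρ' • B =
      γ • C ^ 2 + ω • C + η' • (1 : Mat K d)

/-- `C` lies in the span of `I, A, B, AB, BA` -/
def InSpan (C A B : Mat K d) : Prop :=
  C ∈ Submodule.span K ({1, A, B, A * B, B * A} : Set (Mat K d))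

end Defs

def A : Mat ℚ 2 := !![2, 4, 4; -2, -4, -4; 1, 2, 3]
def B : Mat ℚ 2 := !![-3, -4, -4; 2, 4, 4; -1, -2, -2]
def C : Mat ℚ 2 := !![-1, 0, 0; 0, 0, 0; 0, 0, 1]

def P1 : (Mat ℚ 2)ˣ := ⟨!![-4, 2, 1; 4, -1, -1; -1, 0, 1],
  !![1 / 3, 2 / 3, 1 / 3; 1, 1, 0; 1 / 3, 2 / 3, 4 / 3], by decide +kernel, by decide +kernel⟩
def P2 : (Mat ℚ 2)ˣ := ⟨!![-1, 0, 4; 2, 1, -2; -1, -1, 1],
  !![1 / 3, 4 / 3, 4 / 3; 0, -1, -2; 1 / 3, 1 / 3, 1 / 3], by decide +kernel, by decide +kernel⟩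

lemma not_triple : ¬ LeonardTriple A B C := by
  rintro ⟨-, -, P, hC, hA, -⟩
  have h1 : ∀ i j, (C i i - inB P C j j) * P.val i j = 0 := fun i j => by
    have h : P.val * inB P C = C * P.val := by
      simp [inB, ← Matrix.mul_assoc]
    have hd : C = Matrix.diagonal C.diag := by decide +kernel
    rw [← hC.diagonal_diag, hd] at h
    have := congrFun (congrFun h i) j
    rw [Matrix.mul_diagonal, Matrix.diagonal_mul] at this
    simp only [Matrix.diag_apply, ← hd] at this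
    linear_combination -this
  have h2 : ∀ i j, (inB P C i i - C j j) * (P⁻¹).val i j = 0 := fun i j => by
    have h : inB P C * (P⁻¹).val = (P⁻¹).val * C := by
      simp only [inB, Matrix.mul_assoc, Units.mul_inv, Matrix.mul_one]
    have hd : C = Matrix.diagonal C.diag := by decide +kernel
    rw [← hC.diagonal_diag, hd] at h
    have := congrFun (congrFun h i) j
    rw [Matrix.mul_diagonal, Matrix.diagonal_mul] at this
    simp only [Matrix.diag_apply, ← hd] at this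
    linear_combination this
  have hc : ∀ i j : Fin 3, C i i = C j j → i = j := by decide +kernel
  have hA' : ∀ i j : Fin 3, A i j ≠ 0 := by decide +kernel
  obtain ⟨i, hi⟩ : ∃ i, (P⁻¹).val 0 i ≠ 0 := by
    by_contra hn
    push Not at hn
    have := congrFun (congrFun P.inv_mul 0) 0
    simp only [Matrix.mul_apply, hn] at this
    simp at this
  obtain ⟨j, hj⟩ : ∃ j, P.val j 2 ≠ 0 := by
    by_contra hn
    push Not at hn
    have := congrFun (congrFun P.inv_mul 2) 2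
    simp only [Matrix.mul_apply, hn] at this
    simp at this
  have hi' : ∀ k, k ≠ i → (P⁻¹).val 0 k = 0 := fun k hk => by
    by_contra hn
    have e1 := (mul_eq_zero.1 (h2 0 k)).resolve_right hn
    have e2 := (mul_eq_zero.1 (h2 0 i)).resolve_right hi
    exact hk (hc _ _ (by linear_combination e2 - e1))
  have hj' : ∀ k, k ≠ j → P.val k 2 = 0 := fun k hk => by
    by_contra hn
    have e1 := (mul_eq_zero.1 (h1 k 2)).resolve_right hn
    have e2 := (mul_eq_zero.1 (h1 j 2)).resolve_right hj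
    exact hk (hc _ _ (by linear_combination e1 - e2))
  have h3 := (hA 0 2).1 (Or.inl (by decide))
  rw [inB, Matrix.mul_apply, Finset.sum_eq_single j (fun k _ hk => by rw [hj' k hk, mul_zero])
    (by simp), Matrix.mul_apply,
    Finset.sum_eq_single i (fun k _ hk => by rw [hi' k hk, zero_mul]) (by simp)] at h3
  exact mul_ne_zero (mul_ne_zero hi (hA' i j)) hj h3

theorem result : ∃ (d : ℕ) (A B C : Mat ℚ d), LeonardPair A B ∧
    InSpan C A B ∧ InSpan A B C ∧ InSpan B C A ∧ AW A B ∧ AW B C ∧ AW C A ∧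
    Diagonalizable C ∧ ¬ LeonardTriple A B C := by
  have hs : ∀ X Y : Mat ℚ 2, X ∈ Submodule.span ℚ ({1, X, Y, X * Y, Y * X} : Set (Mat ℚ 2)) ∧
      Y ∈ Submodule.span ℚ ({1, X, Y, X * Y, Y * X} : Set (Mat ℚ 2)) := fun X Y =>
    ⟨Submodule.subset_span (by simp), Submodule.subset_span (by simp)⟩
  refine ⟨2, A, B, C, ⟨⟨P1, ?_, ?_⟩, P2, ?_, ?_⟩, ?_, ?_, ?_,
    ⟨-1, 1, -1, 2, 2, -3, 4, -4, by decide +kernel, by decide +kernel⟩,
    ⟨-1, -1, 0, 2, 1, 1, -4, -4, by decide +kernel, by decide +kernel⟩,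
    ⟨-1, 0, 1, 1, 2, 1, 4, 4, by decide +kernel, by decide +kernel⟩, ⟨1, ?_⟩, not_triple⟩
  · unfold Matrix.IsDiag Pairwise; decide +kernel
  · unfold IrrTri; decide +kernel
  · unfold Matrix.IsDiag Pairwise; decide +kernel
  · unfold IrrTri; decide +kernel
  · have h : C = A + B := by decide +kernel
    exact h ▸ Submodule.add_mem _ (hs A B).1 (hs A B).2
  · have h : C - B = A := by decide +kernel
    exact h ▸ Submodule.sub_mem _ (hs B C).2 (hs B C).1
  · have h : C - A = B := by decide +kernel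
    exact h ▸ Submodule.sub_mem _ (hs C A).1 (hs C A).2
  · unfold Matrix.IsDiag Pairwise; decide +kernel

end Pool.Agent.Results.MP_b3a6b1_al.Counter
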